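import Pool.Agent.Helper36.QL.Lip

/-!
# QL-L3, part 2: `er_lip`
-/

open Real Set

set_option autoImplicit false

namespace Pool.Agent.Helper60.QL

theorem UG.congr {B w : ℝ} {F G : R3 → ℝ → ℝ} (h : UG B w F) (e : ∀ A τ, F A τ = G A τ) :
    UG B w G := by
  have : F = G := funext fun A => funext fun τ => e A τ
  rwa [this] at h

/-- `q = (1 + x τ)² + s τ²` -/
noncomputable def qA (A : R3) (τ : ℝ) : ℝ := (1 + xA A * τ) ^ 2 + sA A * τ ^ 2

/-- the polynomial of degree four, divided by `T` -/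
noncomputable def PA (A : R3) (τ : ℝ) : ℝ :=
  1 + xA A * τ + sA A / 2 * τ ^ 2 * (1 - xA A * τ + A.2.2 / A.1 * τ ^ 2)

/-- `(PA ^ 2 - qA) / τ ^ 5` -/
noncomputable def Qr (A : R3) (τ : ℝ) : ℝ :=
  sA A * xA A ^ 3 - 3 / 4 * sA A ^ 2 * xA A +
    sA A ^ 2 / 4 * τ * (2 * (A.2.2 / A.1) + (A.2.2 / A.1 * τ - xA A) ^ 2)

/-- the remainder is `- τ ^ 5 * RA A τ` -/
noncomputable def RA (A : R3) (τ : ℝ) : ℝ := TA A * Qr A τ * (√(qA A τ) + PA A τ)⁻¹

section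

variable {B X : ℝ} {A A' : R3}

theorem OM_pos (hB : 1 ≤ B) (hX : 0 < X) (h : A ∈ OM B X) : 0 < A.1 := by
  obtain ⟨a1, -⟩ := h
  by_contra hc
  have := not_lt.1 hc
  nlinarith

theorem c_eq (h1 : 0 < A.1) : A.2.2 / A.1 = xA A ^ 2 - sA A / 4 := by
  unfold xA sA
  field_simp
  ring

theorem sA_pos (hB : 1 ≤ B) (hX : 0 < X) (h : A ∈ OM B X) : 0 < sA A := by
  have h1 := OM_pos hB hX h
  obtain ⟨-, -, -, -, a5⟩ := h
  have h2 : 0 < A.2.1 ^ 2 - A.2.2 * A.1 := by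
    have : 0 < B * (A.2.1 ^ 2 - A.2.2 * A.1) := lt_of_lt_of_le (by positivity) a5
    exact (mul_pos_iff_of_pos_left (by linarith)).1 this
  unfold sA
  positivity

theorem key5 (h1 : 0 < A.1) (τ : ℝ) : PA A τ ^ 2 - qA A τ = τ ^ 5 * Qr A τ := by
  unfold PA qA Qr
  rw [c_eq h1]
  ring

theorem TP (h1 : 0 < A.1) (h2 : 0 < sA A) (τ : ℝ) :
    TA A * PA A τ = TA A + TA A * xA A * τ + A.1 * τ ^ 2 + A.2.1 * τ ^ 3 + A.2.2 * τ ^ 4 := by
  have e1 : TA A * (sA A / 2) = A.1 := by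
    unfold TA
    field_simp
  have e2 : A.1 * xA A = -A.2.1 := by
    unfold xA
    field_simp
  have e3 : A.1 * (A.2.2 / A.1) = A.2.2 := by field_simp
  unfold PA
  linear_combination (τ ^ 2 * (1 - xA A * τ + A.2.2 / A.1 * τ ^ 2)) * e1 - τ ^ 3 * e2 +
    τ ^ 4 * e3

/-- the interval -/
noncomputable def w0 (B : ℝ) : ℝ := 1 / (8 * B ^ 2)

theorem xA_bd (hB : 1 ≤ B) (h : A ∈ OM B 1) : |xA A| ≤ B ^ 2 := by
  have h1 := OM_pos hB one_pos h
  obtain ⟨a1, a2, a3, a4, a5⟩ := h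
  unfold xA
  rw [abs_div, abs_neg, abs_of_pos h1, div_le_iff₀ h1]
  nlinarith

theorem cA_bd (hB : 1 ≤ B) (h : A ∈ OM B 1) : |A.2.2 / A.1| ≤ B ^ 2 := by
  have h1 := OM_pos hB one_pos h
  obtain ⟨a1, a2, a3, a4, a5⟩ := h
  rw [abs_div, abs_of_pos h1, div_le_iff₀ h1]
  nlinarith

theorem sA_bd (hB : 1 ≤ B) (h : A ∈ OM B 1) : 4 / B ^ 3 ≤ sA A := by
  have h1 := OM_pos hB one_pos h
  obtain ⟨a1, a2, a3, a4, a5⟩ := h
  have hB0 : 0 < B := by linarith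
  unfold sA
  rw [div_le_div_iff₀ (by positivity) (by positivity)]
  have e1 : A.1 ^ 2 ≤ B ^ 2 := pow_le_pow_left₀ h1.le (by linarith) 2
  have e2 : 1 ≤ B * (A.2.1 ^ 2 - A.2.2 * A.1) := by simpa using a5
  have e3 : B ^ 2 * 1 ≤ B ^ 2 * (B * (A.2.1 ^ 2 - A.2.2 * A.1)) :=
    mul_le_mul_of_nonneg_left e2 (by positivity)
  nlinarith

theorem w0_pos (hB : 1 ≤ B) : 0 < w0 B := by
  unfold w0
  positivity

theorem w0_le (hB : 1 ≤ B) : w0 B ≤ 1 := by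
  unfold w0
  rw [div_le_one (by positivity)]
  nlinarith

theorem xτ_bd (hB : 1 ≤ B) (h : A ∈ OM B 1) {τ : ℝ} (hτ : |τ| ≤ w0 B) : |xA A * τ| ≤ 1 / 8 := by
  rw [abs_mul]
  calc |xA A| * |τ| ≤ B ^ 2 * w0 B :=
        mul_le_mul (xA_bd hB h) hτ (abs_nonneg _) (by positivity)
    _ = 1 / 8 := by
        unfold w0
        have : B ^ 2 ≠ 0 := by positivity
        field_simp

theorem cτ_bd (hB : 1 ≤ B) (h : A ∈ OM B 1) {τ : ℝ} (hτ : |τ| ≤ w0 B) :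
    |A.2.2 / A.1 * τ ^ 2| ≤ 1 / 8 := by
  have h1 := w0_le hB
  have h2 := cA_bd hB h
  rw [abs_mul, abs_pow, sq |τ|, ← mul_assoc]
  calc |A.2.2 / A.1| * |τ| * |τ| ≤ B ^ 2 * w0 B * 1 := by
        refine mul_le_mul (mul_le_mul h2 hτ (abs_nonneg _) (by positivity)) (hτ.trans h1)
          (abs_nonneg _) (mul_nonneg (by positivity) (w0_pos hB).le)
    _ = 1 / 8 := by
        unfold w0
        have : B ^ 2 ≠ 0 := by positivity
        field_simp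

theorem qA_bd (hB : 1 ≤ B) (h : A ∈ OM B 1) {τ : ℝ} (hτ : |τ| ≤ w0 B) :
    (3 / 4) ^ 2 ≤ qA A τ := by
  have h1 := abs_le.1 (xτ_bd hB h hτ)
  have h2 := (sA_pos hB one_pos h).le
  unfold qA
  nlinarith [mul_nonneg h2 (sq_nonneg τ), h1.1]

theorem PA_bd (hB : 1 ≤ B) (h : A ∈ OM B 1) {τ : ℝ} (hτ : |τ| ≤ w0 B) : 3 / 4 ≤ PA A τ := by
  have h1 := abs_le.1 (xτ_bd hB h hτ)
  have h2 := abs_le.1 (cτ_bd hB h hτ)
  have h3 := (sA_pos hB one_pos h).le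
  have h4 : 0 ≤ sA A / 2 * τ ^ 2 := by positivity
  unfold PA
  nlinarith [mul_nonneg h4 (by linarith : 0 ≤ 1 - xA A * τ + A.2.2 / A.1 * τ ^ 2), h1.1]

theorem er_eq (hB : 1 ≤ B) (h : A ∈ OM B 1) {τ : ℝ} (hτ : |τ| ≤ w0 B) :
    er A τ = -(τ ^ 5 * RA A τ) := by
  have h1 := OM_pos hB one_pos h
  have h2 := sA_pos hB one_pos h
  have h3 := qA_bd hB h hτ
  have h4 := PA_bd hB h hτ
  have h5 : 0 ≤ √(qA A τ) := Real.sqrt_nonneg _
  have h6 : √(qA A τ) ^ 2 = qA A τ := Real.sq_sqrt (by linarith [sq_nonneg (3 / 4 : ℝ)])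
  have h7 : √(qA A τ) + PA A τ ≠ 0 := by linarith
  have h8 := key5 h1 τ
  have e1 : er A τ = TA A * √(qA A τ) - TA A * PA A τ := by
    rw [TP h1 h2]
    rfl
  rw [e1]
  unfold RA
  rw [← sub_eq_zero]
  have e2 : TA A * √(qA A τ) - TA A * PA A τ - -(τ ^ 5 * (TA A * Qr A τ * (√(qA A τ) + PA A τ)⁻¹)) =
      (TA A * (√(qA A τ) ^ 2 - PA A τ ^ 2 + τ ^ 5 * Qr A τ)) * (√(qA A τ) + PA A τ)⁻¹ := by
    field_simp
    ring
  rw [e2, h6, ← h8]
  ring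

theorem UG_RA (hB : 1 ≤ B) : UG B (w0 B) RA := by
  have w := (w0_pos hB).le
  have hB0 : 0 < B := by linarith
  have u1 : UG B (w0 B) (fun A _ => A.1) := UG.c1 hB
  have u2 : UG B (w0 B) (fun A _ => A.2.1) := UG.c2 hB
  have u3 : UG B (w0 B) (fun A _ => A.2.2) := UG.c3 hB
  have ut : UG B (w0 B) (fun _ τ => τ) := UG.idn w
  have i1 : UG B (w0 B) (fun A _ => (A.1)⁻¹) := by
    refine UG.inv (c := 1 / B) u1 (by positivity) fun A hA τ _ => ?_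
    have := hA.1
    rw [div_le_iff₀ hB0]
    linarith
  have ux : UG B (w0 B) (fun A _ => xA A) :=
    ((UG.cst (-1)).mul (u2.mul i1)).congr fun A τ => by
      unfold xA
      rw [div_eq_mul_inv]
      ring
  have us : UG B (w0 B) (fun A _ => sA A) :=
    ((UG.cst 4).mul (((u2.mul u2).add ((UG.cst (-1)).mul (u3.mul u1))).mul (i1.mul i1))).congr
      fun A τ => by
        unfold sA
        rw [div_eq_mul_inv, sq, sq, mul_inv]
        ring
  have is : UG B (w0 B) (fun A _ => (sA A)⁻¹) :=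
    UG.inv (c := 4 / B ^ 3) us (by positivity) fun A hA τ _ => sA_bd hB hA
  have uT : UG B (w0 B) (fun A _ => TA A) :=
    ((UG.cst 2).mul (u1.mul is)).congr fun A τ => by
      unfold TA
      rw [div_eq_mul_inv]
      ring
  have uc : UG B (w0 B) (fun A _ => A.2.2 / A.1) :=
    (u3.mul i1).congr fun A τ => by rw [div_eq_mul_inv]
  have u1x : UG B (w0 B) (fun A τ => 1 + xA A * τ) := (UG.cst 1).add (ux.mul ut)
  have uq : UG B (w0 B) qA :=
    ((u1x.mul u1x).add (us.mul (ut.mul ut))).congr fun A τ => by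
      unfold qA
      ring
  have uP : UG B (w0 B) PA :=
    (u1x.add ((((UG.cst (1 / 2)).mul us).mul (ut.mul ut)).mul
      (((UG.cst 1).add ((UG.cst (-1)).mul (ux.mul ut))).add (uc.mul (ut.mul ut))))).congr
      fun A τ => by
        unfold PA
        ring
  have uQ : UG B (w0 B) Qr := by
    have v : UG B (w0 B) (fun A τ => A.2.2 / A.1 * τ + -1 * xA A) :=
      (uc.mul ut).add ((UG.cst (-1)).mul ux)
    refine (((us.mul (ux.mul (ux.mul ux))).add ((UG.cst (-3 / 4)).mul ((us.mul us).mul ux))).add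
      (((UG.cst (1 / 4)).mul ((us.mul us).mul ut)).mul
        (((UG.cst 2).mul uc).add (v.mul v)))).congr fun A τ => ?_
    unfold Qr
    ring
  have uD : UG B (w0 B) (fun A τ => (√(qA A τ) + PA A τ)⁻¹) := by
    have r : UG B (w0 B) (fun A τ => √(qA A τ)) :=
      UG.sqrt (c := 3 / 4) uq (by norm_num) fun A hA τ hτ => qA_bd hB hA hτ
    refine UG.inv (c := 3 / 4) (r.add uP) (by norm_num) fun A hA τ hτ => ?_
    have := PA_bd hB hA hτ
    have := Real.sqrt_nonneg (qA A τ)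
    linarith
  exact ((uT.mul uQ).mul uD).congr fun A τ => rfl

/-- the scaled form -/
noncomputable def scl (X : ℝ) (A : R3) : R3 := (A.1 / X, A.2.1 / X, A.2.2 / X)

theorem scl_mem (hX : 0 < X) (h : A ∈ OM B X) : scl X A ∈ OM B 1 := by
  obtain ⟨a1, a2, a3, a4, a5⟩ := h
  refine ⟨?_, ?_, ?_, ?_, ?_⟩
  · change 1 ≤ B * (A.1 / X)
    rw [← mul_div_assoc, le_div_iff₀ hX]
    linarith
  · change A.1 / X ≤ B * 1
    rw [div_le_iff₀ hX]
    linarith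
  · change |A.2.1 / X| ≤ B * 1
    rw [abs_div, abs_of_pos hX, div_le_iff₀ hX]
    linarith
  · change |A.2.2 / X| ≤ B * 1
    rw [abs_div, abs_of_pos hX, div_le_iff₀ hX]
    linarith
  · change 1 ^ 2 ≤ B * ((A.2.1 / X) ^ 2 - A.2.2 / X * (A.1 / X))
    have e : B * ((A.2.1 / X) ^ 2 - A.2.2 / X * (A.1 / X)) =
        B * (A.2.1 ^ 2 - A.2.2 * A.1) / X ^ 2 := by
      field_simp
    rw [e, le_div_iff₀ (by positivity)]
    linarith

theorem er_scl (hX : 0 < X) (h : 0 < A.1) (τ : ℝ) : er A τ = X * er (scl X A) τ := by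
  have e1 : xA (scl X A) = xA A := by
    unfold xA scl
    field_simp
  have e2 : sA (scl X A) = sA A := by
    unfold sA scl
    field_simp
  have e3 : X * TA (scl X A) = TA A := by
    unfold TA
    rw [e2]
    unfold scl
    field_simp
  have f1 : X * (scl X A).1 = A.1 := by unfold scl; field_simp
  have f2 : X * (scl X A).2.1 = A.2.1 := by unfold scl; field_simp
  have f3 : X * (scl X A).2.2 = A.2.2 := by unfold scl; field_simp
  unfold er pA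
  rw [e1, e2, ← e3]
  linear_combination τ ^ 2 * f1 + τ ^ 3 * f2 + τ ^ 4 * f3

end

private theorem pow5_lip {w τ τ' : ℝ} (h : |τ| ≤ w) (h' : |τ'| ≤ w) :
    |τ ^ 5 - τ' ^ 5| ≤ 5 * w ^ 4 * |τ - τ'| := by
  have hw : 0 ≤ w := (abs_nonneg _).trans h
  have e : τ ^ 5 - τ' ^ 5 = (τ - τ') * (τ ^ 4 + τ ^ 3 * τ' + τ ^ 2 * τ' ^ 2 + τ * τ' ^ 3 + τ' ^ 4) := by
    ring
  have p : ∀ (i j : ℕ), |τ ^ i * τ' ^ j| ≤ w ^ i * w ^ j := by
    intro i j
    rw [abs_mul, abs_pow, abs_pow]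
    exact mul_le_mul (pow_le_pow_left₀ (abs_nonneg _) h i) (pow_le_pow_left₀ (abs_nonneg _) h' j)
      (by positivity) (by positivity)
  have q : |τ ^ 4 + τ ^ 3 * τ' + τ ^ 2 * τ' ^ 2 + τ * τ' ^ 3 + τ' ^ 4| ≤ 5 * w ^ 4 := by
    have a0 := abs_le.1 (p 4 0)
    have a1 := abs_le.1 (p 3 1)
    have a2 := abs_le.1 (p 2 2)
    have a3 := abs_le.1 (p 1 3)
    have a4 := abs_le.1 (p 0 4)
    simp only [pow_zero, mul_one, one_mul, pow_one] at a0 a1 a2 a3 a4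
    rw [abs_le]
    constructor <;> nlinarith
  rw [e, abs_mul]
  have := mul_le_mul_of_nonneg_left q (abs_nonneg (τ - τ'))
  linarith

/-- the remainder is Lipschitz in `A` with the factor `|τ|⁵` -/
theorem er_lip {B : ℝ} (hB : 1 ≤ B) : ∃ C w₀ : ℝ, 1 ≤ C ∧ 0 < w₀ ∧ w₀ ≤ 1 ∧ ∀ (X δ : ℝ) (A A' : R3), 0 < X → A ∈ OM B X → A' ∈ OM B X →
    |A.1 - A'.1| ≤ δ * X → |A.2.1 - A'.2.1| ≤ δ * X → |A.2.2 - A'.2.2| ≤ δ * X →
    (∀ τ : ℝ, |τ| ≤ w₀ → |er A τ - er A' τ| ≤ C * δ * X * |τ| ^ 5) ∧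
    ∀ τ τ' w : ℝ, |τ| ≤ w → |τ'| ≤ w → w ≤ w₀ → |(er A τ - er A' τ) - (er A τ' - er A' τ')| ≤ C * δ * X * w ^ 4 * |τ - τ'| := by
  obtain ⟨K, hK, hR⟩ := UG_RA hB
  refine ⟨6 * K, w0 B, by linarith, w0_pos hB, w0_le hB, ?_⟩
  intro X δ A A' hX hA hA' d1 d2 d3
  have hδ : 0 ≤ δ := by
    have := (abs_nonneg _).trans d1
    exact nonneg_of_mul_nonneg_left this hX
  have m := scl_mem hX hA
  have m' := scl_mem hX hA'
  have dd : ∀ {a b : ℝ}, |a - b| ≤ δ * X → |a / X - b / X| ≤ δ := by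
    intro a b h
    rw [← sub_div, abs_div, abs_of_pos hX, div_le_iff₀ hX]
    exact h
  have G := hR δ (scl X A) (scl X A') hδ m m' (dd d1) (dd d2) (dd d3)
  have E : ∀ τ, |τ| ≤ w0 B → er A τ - er A' τ =
      -(X * (τ ^ 5 * (RA (scl X A) τ - RA (scl X A') τ))) := by
    intro τ hτ
    rw [er_scl hX (OM_pos hB hX hA), er_scl hX (OM_pos hB hX hA'), er_eq hB m hτ, er_eq hB m' hτ]
    ring
  have hKδ : 0 ≤ K * δ := mul_nonneg (by linarith) hδ
  constructor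
  · intro τ hτ
    rw [E τ hτ, abs_neg, abs_mul, abs_mul, abs_of_pos hX, abs_pow]
    have e1 := G.d τ hτ
    have e2 : 0 ≤ |τ| ^ 5 := by positivity
    have e3 := mul_le_mul_of_nonneg_left e1 e2
    have e4 := mul_le_mul_of_nonneg_left e3 hX.le
    have e5 : 0 ≤ X * (|τ| ^ 5 * (K * δ)) := by positivity
    nlinarith
  · intro τ τ' w h1 h2 h3
    have hw : 0 ≤ w := (abs_nonneg _).trans h1
    have t1 := h1.trans h3
    have t2 := h2.trans h3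
    rw [E τ t1, E τ' t2]
    have e0 : -(X * (τ ^ 5 * (RA (scl X A) τ - RA (scl X A') τ))) -
        -(X * (τ' ^ 5 * (RA (scl X A) τ' - RA (scl X A') τ'))) =
        -(X * ((τ ^ 5 - τ' ^ 5) * (RA (scl X A) τ - RA (scl X A') τ) +
          τ' ^ 5 * ((RA (scl X A) τ - RA (scl X A') τ) - (RA (scl X A) τ' - RA (scl X A') τ')))) := by
      ring
    rw [e0, abs_neg, abs_mul, abs_of_pos hX]
    have a1 : |(τ ^ 5 - τ' ^ 5) * (RA (scl X A) τ - RA (scl X A') τ)| ≤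
        5 * w ^ 4 * |τ - τ'| * (K * δ) := by
      rw [abs_mul]
      exact mul_le_mul (pow5_lip h1 h2) (G.d τ t1) (abs_nonneg _) (by positivity)
    have a2 : |τ' ^ 5 * ((RA (scl X A) τ - RA (scl X A') τ) - (RA (scl X A) τ' - RA (scl X A') τ'))|
        ≤ w ^ 4 * (K * δ * |τ - τ'|) := by
      rw [abs_mul, abs_pow]
      refine mul_le_mul ?_ (G.m τ τ' t1 t2) (abs_nonneg _) (by positivity)
      calc |τ'| ^ 5 = |τ'| ^ 4 * |τ'| := by ring
        _ ≤ w ^ 4 * 1 := mul_le_mul (pow_le_pow_left₀ (abs_nonneg _) h2 4)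
            (t2.trans (w0_le hB)) (abs_nonneg _) (by positivity)
        _ = w ^ 4 := mul_one _
    have a3 := (abs_add_le ((τ ^ 5 - τ' ^ 5) * (RA (scl X A) τ - RA (scl X A') τ))
      (τ' ^ 5 * ((RA (scl X A) τ - RA (scl X A') τ) - (RA (scl X A) τ' - RA (scl X A') τ')))).trans
      (add_le_add a1 a2)
    have a4 := mul_le_mul_of_nonneg_left a3 hX.le
    refine a4.trans (le_of_eq ?_)
    ring

end Pool.Agent.Helper60.QL
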