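import Pool.Agent.Helper60.QL.Defs

/-!
# QL-L3, part 1: the remainder is Lipschitz in the form, with a Lipschitz difference

`Gd w δ K f g`: on `|τ| ≤ w` the functions `f`, `g` are bounded and Lipschitz, their difference is at most
`K δ` and has the Lipschitz constant `K δ`. The property is stable under sums, products, inverses and
square roots. `er A τ = - τ⁵ R(A, τ)` with an algebraic function `R` (no Taylor expansion).
-/

open Real Set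

set_option autoImplicit false

namespace Pool.Agent.Helper60.QL

/-- pairs of functions with a small Lipschitz difference -/
structure Gd (w δ K : ℝ) (f g : ℝ → ℝ) : Prop where
  bf : ∀ τ, |τ| ≤ w → |f τ| ≤ K
  bg : ∀ τ, |τ| ≤ w → |g τ| ≤ K
  l1 : ∀ τ τ', |τ| ≤ w → |τ'| ≤ w → |f τ - f τ'| ≤ K * |τ - τ'|
  l2 : ∀ τ τ', |τ| ≤ w → |τ'| ≤ w → |g τ - g τ'| ≤ K * |τ - τ'|
  d : ∀ τ, |τ| ≤ w → |f τ - g τ| ≤ K * δ
  m : ∀ τ τ', |τ| ≤ w → |τ'| ≤ w → |(f τ - g τ) - (f τ' - g τ')| ≤ K * δ * |τ - τ'|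

section

variable {w δ K L c : ℝ} {f g f' g' : ℝ → ℝ}

theorem Gd.weaken (h : Gd w δ K f g) (hδ : 0 ≤ δ) (hK : K ≤ L) : Gd w δ L f g := by
  refine ⟨fun τ h1 => (h.bf τ h1).trans hK, fun τ h1 => (h.bg τ h1).trans hK,
    fun τ τ' h1 h2 => (h.l1 τ τ' h1 h2).trans ?_, fun τ τ' h1 h2 => (h.l2 τ τ' h1 h2).trans ?_,
    fun τ h1 => (h.d τ h1).trans ?_, fun τ τ' h1 h2 => (h.m τ τ' h1 h2).trans ?_⟩
  · exact mul_le_mul_of_nonneg_right hK (abs_nonneg _)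
  · exact mul_le_mul_of_nonneg_right hK (abs_nonneg _)
  · exact mul_le_mul_of_nonneg_right hK hδ
  · exact mul_le_mul_of_nonneg_right (mul_le_mul_of_nonneg_right hK hδ) (abs_nonneg _)

theorem Gd.add (h : Gd w δ K f g) (k : Gd w δ L f' g') :
    Gd w δ (K + L) (fun τ => f τ + f' τ) (fun τ => g τ + g' τ) := by
  refine ⟨fun τ h1 => ?_, fun τ h1 => ?_, fun τ τ' h1 h2 => ?_, fun τ τ' h1 h2 => ?_,
    fun τ h1 => ?_, fun τ τ' h1 h2 => ?_⟩
  · exact (abs_add_le _ _).trans (add_le_add (h.bf τ h1) (k.bf τ h1))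
  · exact (abs_add_le _ _).trans (add_le_add (h.bg τ h1) (k.bg τ h1))
  · rw [show f τ + f' τ - (f τ' + f' τ') = (f τ - f τ') + (f' τ - f' τ') by ring, add_mul]
    exact (abs_add_le _ _).trans (add_le_add (h.l1 τ τ' h1 h2) (k.l1 τ τ' h1 h2))
  · rw [show g τ + g' τ - (g τ' + g' τ') = (g τ - g τ') + (g' τ - g' τ') by ring, add_mul]
    exact (abs_add_le _ _).trans (add_le_add (h.l2 τ τ' h1 h2) (k.l2 τ τ' h1 h2))
  · rw [show f τ + f' τ - (g τ + g' τ) = (f τ - g τ) + (f' τ - g' τ) by ring, add_mul]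
    exact (abs_add_le _ _).trans (add_le_add (h.d τ h1) (k.d τ h1))
  · rw [show f τ + f' τ - (g τ + g' τ) - (f τ' + f' τ' - (g τ' + g' τ')) =
      ((f τ - g τ) - (f τ' - g τ')) + ((f' τ - g' τ) - (f' τ' - g' τ')) by ring, add_mul, add_mul]
    exact (abs_add_le _ _).trans (add_le_add (h.m τ τ' h1 h2) (k.m τ τ' h1 h2))

private theorem ab {a b x y : ℝ} (h1 : |a| ≤ x) (h2 : |b| ≤ y) : |a * b| ≤ x * y := by
  rw [abs_mul]
  exact mul_le_mul h1 h2 (abs_nonneg _) ((abs_nonneg _).trans h1)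

theorem Gd.mul (h : Gd w δ K f g) (k : Gd w δ L f' g') (hδ : 0 ≤ δ) (hK : 0 ≤ K) (hL : 0 ≤ L) :
    Gd w δ (4 * K * L) (fun τ => f τ * f' τ) (fun τ => g τ * g' τ) := by
  have hKL : 0 ≤ K * L := mul_nonneg hK hL
  refine ⟨fun τ h1 => ?_, fun τ h1 => ?_, fun τ τ' h1 h2 => ?_, fun τ τ' h1 h2 => ?_,
    fun τ h1 => ?_, fun τ τ' h1 h2 => ?_⟩
  · refine (ab (h.bf τ h1) (k.bf τ h1)).trans (by nlinarith)
  · refine (ab (h.bg τ h1) (k.bg τ h1)).trans (by nlinarith)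
  · rw [show f τ * f' τ - f τ' * f' τ' = (f τ - f τ') * f' τ + f τ' * (f' τ - f' τ') by ring]
    have e1 := ab (h.l1 τ τ' h1 h2) (k.bf τ h1)
    have e2 := ab (h.bf τ' h2) (k.l1 τ τ' h1 h2)
    have e3 : 0 ≤ K * L * |τ - τ'| := mul_nonneg hKL (abs_nonneg _)
    refine (abs_add_le _ _).trans ?_
    nlinarith
  · rw [show g τ * g' τ - g τ' * g' τ' = (g τ - g τ') * g' τ + g τ' * (g' τ - g' τ') by ring]
    have e1 := ab (h.l2 τ τ' h1 h2) (k.bg τ h1)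
    have e2 := ab (h.bg τ' h2) (k.l2 τ τ' h1 h2)
    have e3 : 0 ≤ K * L * |τ - τ'| := mul_nonneg hKL (abs_nonneg _)
    refine (abs_add_le _ _).trans ?_
    nlinarith
  · rw [show f τ * f' τ - g τ * g' τ = (f τ - g τ) * f' τ + g τ * (f' τ - g' τ) by ring]
    have e1 := ab (h.d τ h1) (k.bf τ h1)
    have e2 := ab (h.bg τ h1) (k.d τ h1)
    have e3 : 0 ≤ K * L * δ := mul_nonneg hKL hδ
    refine (abs_add_le _ _).trans ?_
    nlinarith
  · rw [show f τ * f' τ - g τ * g' τ - (f τ' * f' τ' - g τ' * g' τ') =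
      (((f τ - g τ) - (f τ' - g τ')) * f' τ + (f τ' - g τ') * (f' τ - f' τ')) +
      (g τ * ((f' τ - g' τ) - (f' τ' - g' τ')) + (g τ - g τ') * (f' τ' - g' τ')) by ring]
    have e1 := ab (h.m τ τ' h1 h2) (k.bf τ h1)
    have e2 := ab (h.d τ' h2) (k.l1 τ τ' h1 h2)
    have e3 := ab (h.bg τ h1) (k.m τ τ' h1 h2)
    have e4 := ab (h.l2 τ τ' h1 h2) (k.d τ' h2)
    refine (abs_add_le _ _).trans ?_
    have e5 := abs_add_le (((f τ - g τ) - (f τ' - g τ')) * f' τ) ((f τ' - g τ') * (f' τ - f' τ'))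
    have e6 := abs_add_le (g τ * ((f' τ - g' τ) - (f' τ' - g' τ'))) ((g τ - g τ') * (f' τ' - g' τ'))
    nlinarith

/-- quotient of two differences -/
private theorem quo {u u' v v' U V W e : ℝ} (he : 0 < e) (hv : e ≤ v) (hv' : e ≤ v')
    (h1 : |u - u'| ≤ U) (h2 : |u'| ≤ V) (h3 : |v - v'| ≤ W) :
    |u / v - u' / v'| ≤ U / e + V * W / e ^ 2 := by
  have hv0 : 0 < v := he.trans_le hv
  have hv0' : 0 < v' := he.trans_le hv'
  have e1 : u / v - u' / v' = (u - u') / v + u' * (v' - v) / (v * v') := by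
    field_simp
    ring
  rw [e1]
  refine (abs_add_le _ _).trans (add_le_add ?_ ?_)
  · rw [abs_div, abs_of_pos hv0]
    exact div_le_div₀ ((abs_nonneg _).trans h1) h1 he hv
  · rw [abs_div, abs_of_pos (mul_pos hv0 hv0')]
    refine div_le_div₀ (mul_nonneg ((abs_nonneg _).trans h2) ((abs_nonneg _).trans h3)) ?_
      (by positivity) ?_
    · refine ab h2 ?_
      rwa [abs_sub_comm]
    · rw [sq]
      exact mul_le_mul hv hv' he.le hv0.le

theorem Gd.inv (h : Gd w δ K f g) (hδ : 0 ≤ δ) (hK : 0 ≤ K) (hc : 0 < c)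
    (h1 : ∀ τ, |τ| ≤ w → c ≤ f τ) (h2 : ∀ τ, |τ| ≤ w → c ≤ g τ) :
    Gd w δ (1 / c + K / c ^ 2 + 2 * K ^ 3 / c ^ 4) (fun τ => (f τ)⁻¹) (fun τ => (g τ)⁻¹) := by
  have p1 : 0 ≤ 1 / c := by positivity
  have p2 : 0 ≤ K / c ^ 2 := by positivity
  have p3 : 0 ≤ 2 * K ^ 3 / c ^ 4 := by positivity
  have b : ∀ {t : ℝ}, c ≤ t → |t⁻¹| ≤ 1 / c := by
    intro t ht
    have ht0 : 0 < t := hc.trans_le ht
    rw [abs_of_pos (inv_pos.2 ht0), one_div]
    exact inv_anti₀ hc ht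
  have lip : ∀ {t t' : ℝ}, c ≤ t → c ≤ t' → |t⁻¹ - t'⁻¹| ≤ |t - t'| / c ^ 2 := by
    intro t t' ht ht'
    have ht0 : 0 < t := hc.trans_le ht
    have ht0' : 0 < t' := hc.trans_le ht'
    rw [show t⁻¹ - t'⁻¹ = (t' - t) / (t * t') by field_simp, abs_div, abs_of_pos (mul_pos ht0 ht0'),
      abs_sub_comm]
    refine div_le_div₀ (abs_nonneg _) le_rfl (by positivity) ?_
    rw [sq]
    exact mul_le_mul ht ht' hc.le ht0.le
  refine ⟨fun τ t1 => ?_, fun τ t1 => ?_, fun τ τ' t1 t2 => ?_, fun τ τ' t1 t2 => ?_,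
    fun τ t1 => ?_, fun τ τ' t1 t2 => ?_⟩
  · exact (b (h1 τ t1)).trans (by linarith)
  · exact (b (h2 τ t1)).trans (by linarith)
  · refine (lip (h1 τ t1) (h1 τ' t2)).trans ?_
    have e := h.l1 τ τ' t1 t2
    have e2 : |f τ - f τ'| / c ^ 2 ≤ K / c ^ 2 * |τ - τ'| := by
      rw [div_mul_eq_mul_div]
      exact div_le_div_of_nonneg_right e (by positivity)
    nlinarith [mul_nonneg p1 (abs_nonneg (τ - τ')), mul_nonneg p3 (abs_nonneg (τ - τ'))]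
  · refine (lip (h2 τ t1) (h2 τ' t2)).trans ?_
    have e := h.l2 τ τ' t1 t2
    have e2 : |g τ - g τ'| / c ^ 2 ≤ K / c ^ 2 * |τ - τ'| := by
      rw [div_mul_eq_mul_div]
      exact div_le_div_of_nonneg_right e (by positivity)
    nlinarith [mul_nonneg p1 (abs_nonneg (τ - τ')), mul_nonneg p3 (abs_nonneg (τ - τ'))]
  · refine (lip (h1 τ t1) (h2 τ t1)).trans ?_
    have e := h.d τ t1
    have e2 : |f τ - g τ| / c ^ 2 ≤ K / c ^ 2 * δ := by
      rw [div_mul_eq_mul_div]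
      exact div_le_div_of_nonneg_right e (by positivity)
    nlinarith [mul_nonneg p1 hδ, mul_nonneg p3 hδ]
  · have q1 : 0 < f τ := hc.trans_le (h1 τ t1)
    have q2 : 0 < g τ := hc.trans_le (h2 τ t1)
    have q3 : 0 < f τ' := hc.trans_le (h1 τ' t2)
    have q4 : 0 < g τ' := hc.trans_le (h2 τ' t2)
    rw [show (f τ)⁻¹ - (g τ)⁻¹ - ((f τ')⁻¹ - (g τ')⁻¹) =
      (f τ' - g τ') / (f τ' * g τ') - (f τ - g τ) / (f τ * g τ) by field_simp; ring]
    have cc : ∀ {t t' : ℝ}, c ≤ t → c ≤ t' → c ^ 2 ≤ t * t' := by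
      intro t t' a a'
      rw [sq]
      exact mul_le_mul a a' hc.le (hc.le.trans a)
    have hm := h.m τ' τ t2 t1
    have hv : |f τ' * g τ' - f τ * g τ| ≤ 2 * K ^ 2 * |τ' - τ| := by
      rw [show f τ' * g τ' - f τ * g τ = (f τ' - f τ) * g τ' + f τ * (g τ' - g τ) by ring]
      have a1 := ab (h.l1 τ' τ t2 t1) (h.bg τ' t2)
      have a2 := ab (h.bf τ t1) (h.l2 τ' τ t2 t1)
      refine (abs_add_le _ _).trans ?_
      nlinarith
    have := quo (pow_pos hc 2) (cc (h1 τ' t2) (h2 τ' t2)) (cc (h1 τ t1) (h2 τ t1)) hm (h.d τ t1) hv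
    refine this.trans ?_
    rw [abs_sub_comm τ' τ]
    have e3 : K * δ * |τ - τ'| / c ^ 2 + K * δ * (2 * K ^ 2 * |τ - τ'|) / (c ^ 2) ^ 2 =
      (K / c ^ 2 + 2 * K ^ 3 / c ^ 4) * δ * |τ - τ'| := by
      field_simp
    rw [e3]
    have e4 : 0 ≤ 1 / c * (δ * |τ - τ'|) := mul_nonneg p1 (mul_nonneg hδ (abs_nonneg _))
    nlinarith

theorem Gd.sqrt (h : Gd w δ K f g) (hδ : 0 ≤ δ) (hK : 0 ≤ K) (hc : 0 < c)
    (h1 : ∀ τ, |τ| ≤ w → c ^ 2 ≤ f τ) (h2 : ∀ τ, |τ| ≤ w → c ^ 2 ≤ g τ) :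
    Gd w δ (1 + K + K / c + 2 * K ^ 2 / c ^ 3) (fun τ => √(f τ)) (fun τ => √(g τ)) := by
  have p2 : 0 ≤ K / c := by positivity
  have p3 : 0 ≤ 2 * K ^ 2 / c ^ 3 := by positivity
  have sl : ∀ {t : ℝ}, c ^ 2 ≤ t → c ≤ √t := fun {t} ht => Real.le_sqrt_of_sq_le ht
  have b : ∀ {t : ℝ}, |t| ≤ K → |√t| ≤ 1 + K := by
    intro t ht
    rw [abs_of_nonneg (Real.sqrt_nonneg _)]
    have h3 : t ≤ K := (le_abs_self _).trans ht
    calc √t ≤ √((1 + K) ^ 2) := Real.sqrt_le_sqrt (by nlinarith)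
      _ = 1 + K := Real.sqrt_sq (by linarith)
  have dif : ∀ {t t' : ℝ}, c ^ 2 ≤ t → c ^ 2 ≤ t' → √t - √t' = (t - t') / (√t + √t') := by
    intro t t' a a'
    have c2 : 0 < c ^ 2 := by positivity
    have e1 := Real.sq_sqrt (c2.le.trans a)
    have e2 := Real.sq_sqrt (c2.le.trans a')
    have e3 := sl a
    have e4 := sl a'
    rw [eq_div_iff (by linarith)]
    nlinarith
  have lip : ∀ {t t' : ℝ}, c ^ 2 ≤ t → c ^ 2 ≤ t' → |√t - √t'| ≤ |t - t'| / c := by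
    intro t t' a a'
    have e3 := sl a
    have e4 := sl a'
    rw [dif a a', abs_div, abs_of_pos (by linarith : 0 < √t + √t')]
    exact div_le_div₀ (abs_nonneg _) le_rfl hc (by linarith)
  refine ⟨fun τ t1 => ?_, fun τ t1 => ?_, fun τ τ' t1 t2 => ?_, fun τ τ' t1 t2 => ?_,
    fun τ t1 => ?_, fun τ τ' t1 t2 => ?_⟩
  · exact (b (h.bf τ t1)).trans (by linarith)
  · exact (b (h.bg τ t1)).trans (by linarith)
  · refine (lip (h1 τ t1) (h1 τ' t2)).trans ?_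
    have e2 : |f τ - f τ'| / c ≤ K / c * |τ - τ'| := by
      rw [div_mul_eq_mul_div]
      exact div_le_div_of_nonneg_right (h.l1 τ τ' t1 t2) hc.le
    nlinarith [mul_nonneg hK (abs_nonneg (τ - τ')), mul_nonneg p3 (abs_nonneg (τ - τ')),
      abs_nonneg (τ - τ')]
  · refine (lip (h2 τ t1) (h2 τ' t2)).trans ?_
    have e2 : |g τ - g τ'| / c ≤ K / c * |τ - τ'| := by
      rw [div_mul_eq_mul_div]
      exact div_le_div_of_nonneg_right (h.l2 τ τ' t1 t2) hc.le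
    nlinarith [mul_nonneg hK (abs_nonneg (τ - τ')), mul_nonneg p3 (abs_nonneg (τ - τ')),
      abs_nonneg (τ - τ')]
  · refine (lip (h1 τ t1) (h2 τ t1)).trans ?_
    have e2 : |f τ - g τ| / c ≤ K / c * δ := by
      rw [div_mul_eq_mul_div]
      exact div_le_div_of_nonneg_right (h.d τ t1) hc.le
    nlinarith [mul_nonneg hK hδ, mul_nonneg p3 hδ]
  · rw [dif (h1 τ t1) (h2 τ t1), dif (h1 τ' t2) (h2 τ' t2)]
    have s1 := sl (h1 τ t1)
    have s2 := sl (h2 τ t1)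
    have s3 := sl (h1 τ' t2)
    have s4 := sl (h2 τ' t2)
    have hv : |√(f τ) + √(g τ) - (√(f τ') + √(g τ'))| ≤ 2 * (K * |τ - τ'| / c) := by
      rw [show √(f τ) + √(g τ) - (√(f τ') + √(g τ')) = (√(f τ) - √(f τ')) + (√(g τ) - √(g τ')) by
        ring]
      refine (abs_add_le _ _).trans ?_
      have a1 := (lip (h1 τ t1) (h1 τ' t2)).trans
        (div_le_div_of_nonneg_right (h.l1 τ τ' t1 t2) hc.le)
      have a2 := (lip (h2 τ t1) (h2 τ' t2)).trans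
        (div_le_div_of_nonneg_right (h.l2 τ τ' t1 t2) hc.le)
      linarith
    have := quo hc (by linarith : c ≤ √(f τ) + √(g τ)) (by linarith : c ≤ √(f τ') + √(g τ'))
      (h.m τ τ' t1 t2) (h.d τ' t2) hv
    refine this.trans ?_
    have e3 : K * δ * |τ - τ'| / c + K * δ * (2 * (K * |τ - τ'| / c)) / c ^ 2 =
      (K / c + 2 * K ^ 2 / c ^ 3) * δ * |τ - τ'| := by
      field_simp
    rw [e3]
    have e4 : 0 ≤ (1 + K) * (δ * |τ - τ'|) :=
      mul_nonneg (by linarith) (mul_nonneg hδ (abs_nonneg _))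
    nlinarith

end

/-- families of functions on the forms of size one -/
def UG (B w : ℝ) (F : R3 → ℝ → ℝ) : Prop :=
  ∃ K : ℝ, 1 ≤ K ∧ ∀ (δ : ℝ) (A A' : R3), 0 ≤ δ → A ∈ OM B 1 → A' ∈ OM B 1 → |A.1 - A'.1| ≤ δ →
    |A.2.1 - A'.2.1| ≤ δ → |A.2.2 - A'.2.2| ≤ δ → Gd w δ K (F A) (F A')

section

variable {B w c : ℝ} {F G : R3 → ℝ → ℝ}

theorem UG.add (h : UG B w F) (k : UG B w G) : UG B w (fun A τ => F A τ + G A τ) := by
  obtain ⟨K, hK, h⟩ := h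
  obtain ⟨L, hL, k⟩ := k
  exact ⟨K + L, by linarith, fun δ A A' h0 h1 h2 h3 h4 h5 =>
    (h δ A A' h0 h1 h2 h3 h4 h5).add (k δ A A' h0 h1 h2 h3 h4 h5)⟩

theorem UG.mul (h : UG B w F) (k : UG B w G) : UG B w (fun A τ => F A τ * G A τ) := by
  obtain ⟨K, hK, h⟩ := h
  obtain ⟨L, hL, k⟩ := k
  exact ⟨4 * K * L, by nlinarith, fun δ A A' h0 h1 h2 h3 h4 h5 =>
    (h δ A A' h0 h1 h2 h3 h4 h5).mul (k δ A A' h0 h1 h2 h3 h4 h5) h0 (by linarith) (by linarith)⟩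

theorem UG.inv (h : UG B w F) (hc : 0 < c) (hF : ∀ A ∈ OM B 1, ∀ τ, |τ| ≤ w → c ≤ F A τ) :
    UG B w (fun A τ => (F A τ)⁻¹) := by
  obtain ⟨K, hK, h⟩ := h
  refine ⟨1 + (1 / c + K / c ^ 2 + 2 * K ^ 3 / c ^ 4), ?_, fun δ A A' h0 h1 h2 h3 h4 h5 =>
    ((h δ A A' h0 h1 h2 h3 h4 h5).inv h0 (by linarith) hc (hF A h1) (hF A' h2)).weaken h0
      (by linarith)⟩
  have p1 : 0 ≤ 1 / c := by positivity
  have p2 : 0 ≤ K / c ^ 2 := by positivity
  have p3 : 0 ≤ 2 * K ^ 3 / c ^ 4 := by positivity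
  linarith

theorem UG.sqrt (h : UG B w F) (hc : 0 < c) (hF : ∀ A ∈ OM B 1, ∀ τ, |τ| ≤ w → c ^ 2 ≤ F A τ) :
    UG B w (fun A τ => √(F A τ)) := by
  obtain ⟨K, hK, h⟩ := h
  refine ⟨1 + K + K / c + 2 * K ^ 2 / c ^ 3, ?_, fun δ A A' h0 h1 h2 h3 h4 h5 =>
    (h δ A A' h0 h1 h2 h3 h4 h5).sqrt h0 (by linarith) hc (hF A h1) (hF A' h2)⟩
  have p2 : 0 ≤ K / c := by positivity
  have p3 : 0 ≤ 2 * K ^ 2 / c ^ 3 := by positivity
  linarith

theorem UG.cst (r : ℝ) : UG B w (fun _ _ => r) := by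
  refine ⟨1 + |r|, by linarith [abs_nonneg r], fun δ A A' h0 h1 h2 h3 h4 h5 => ?_⟩
  have := abs_nonneg r
  refine ⟨fun _ _ => by linarith, fun _ _ => by linarith, fun τ τ' _ _ => ?_, fun τ τ' _ _ => ?_,
    fun _ _ => ?_, fun τ τ' _ _ => ?_⟩
  · rw [sub_self, abs_zero]; positivity
  · rw [sub_self, abs_zero]; positivity
  · rw [sub_self, abs_zero]; positivity
  · rw [sub_self, abs_zero]; positivity

theorem UG.idn (hw : 0 ≤ w) : UG B w (fun _ τ => τ) := by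
  refine ⟨1 + w, by linarith, fun δ A A' h0 h1 h2 h3 h4 h5 => ?_⟩
  refine ⟨fun _ h => by linarith, fun _ h => by linarith, fun τ τ' _ _ => ?_, fun τ τ' _ _ => ?_,
    fun _ _ => ?_, fun τ τ' _ _ => ?_⟩
  · nlinarith [abs_nonneg (τ - τ')]
  · nlinarith [abs_nonneg (τ - τ')]
  · rw [sub_self, abs_zero]; positivity
  · rw [sub_self, sub_self, sub_zero, abs_zero]; positivity

/-- a Lipschitz function of the form -/
theorem UG.frm (φ : R3 → ℝ) (K : ℝ) (hK : 1 ≤ K) (hb : ∀ A ∈ OM B 1, |φ A| ≤ K)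
    (hl : ∀ (δ : ℝ) (A A' : R3), A ∈ OM B 1 → A' ∈ OM B 1 → |A.1 - A'.1| ≤ δ →
      |A.2.1 - A'.2.1| ≤ δ → |A.2.2 - A'.2.2| ≤ δ → |φ A - φ A'| ≤ K * δ) :
    UG B w (fun A _ => φ A) := by
  refine ⟨K, hK, fun δ A A' h0 h1 h2 h3 h4 h5 => ?_⟩
  refine ⟨fun _ _ => hb A h1, fun _ _ => hb A' h2, fun τ τ' _ _ => ?_, fun τ τ' _ _ => ?_,
    fun _ _ => hl δ A A' h1 h2 h3 h4 h5, fun τ τ' _ _ => ?_⟩
  · rw [sub_self, abs_zero]; positivity
  · rw [sub_self, abs_zero]; positivity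
  · rw [sub_self, abs_zero]; positivity

theorem UG.c1 (hB : 1 ≤ B) : UG B w (fun A _ => A.1) := by
  refine UG.frm (fun A => A.1) B hB (fun A hA => ?_) fun δ A A' _ _ h3 _ _ => ?_
  · obtain ⟨a1, a2, -⟩ := hA
    have : 0 ≤ A.1 := by
      by_contra hc
      have := not_le.1 hc
      nlinarith
    rw [abs_of_nonneg this]
    linarith
  · have := (abs_nonneg _).trans h3
    nlinarith

theorem UG.c2 (hB : 1 ≤ B) : UG B w (fun A _ => A.2.1) := by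
  refine UG.frm (fun A => A.2.1) B hB (fun A hA => ?_) fun δ A A' _ _ _ h4 _ => ?_
  · obtain ⟨-, -, a3, -⟩ := hA
    linarith
  · have := (abs_nonneg _).trans h4
    nlinarith

theorem UG.c3 (hB : 1 ≤ B) : UG B w (fun A _ => A.2.2) := by
  refine UG.frm (fun A => A.2.2) B hB (fun A hA => ?_) fun δ A A' _ _ _ _ h5 => ?_
  · obtain ⟨-, -, -, a4, -⟩ := hA
    linarith
  · have := (abs_nonneg _).trans h5
    nlinarith

end

end Pool.Agent.Helper60.QL
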